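import Pool.Agent.Helper71.SD.Goals

/-!
Packet HT1: the first homotopy, the heights become constant across the walls.
-/

namespace Pool.Agent.Helper71.SD.HT1

open Pool.Agent.Helper71.AHtpy SimpleGraph

/-- the cell of a point -/
def sm (z : Fin 60 → ℤ) : Fin 60 → ℤ := fun i => z i / 128

/-- the position in the grid where the walls are collapsed -/
def tm (z : Fin 60 → ℤ) : Fin 60 → ℤ := fun i => z i - z i / 128

theorem inBox_sm_tm (z : Fin 60 → ℤ) : inBox (sm z) (tm z) := by
  intro i
  simp only [sm, tm]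
  omega

/-- the interpolated height -/
def cc (τ a b : ℕ) : ℕ := max (a - τ) (min b (a + τ))

theorem cc_le {τ a b : ℕ} (ha : a ≤ 67) (hb : b ≤ 67) : cc τ a b ≤ 67 := by
  unfold cc
  omega

theorem cc_zero (a b : ℕ) : cc 0 a b = a := by
  unfold cc
  omega

theorem cc_top {a b : ℕ} (ha : a ≤ 67) (hb : b ≤ 67) : cc 67 a b = b := by
  unfold cc
  omega

theorem cc_bot (τ : ℕ) : cc τ 0 0 = 0 := by
  unfold cc
  omega

theorem cc_full (τ : ℕ) : cc τ 67 67 = 67 := by
  unfold cc
  omega

theorem cc_lip {τ a b a' b' : ℕ} (h1 : a ≤ a' + 1) (h2 : b ≤ b' + 1) :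
    cc τ a b ≤ cc τ a' b' + 1 := by
  unfold cc
  omega

theorem cc_step (τ a b : ℕ) : cc τ a b ≤ cc (τ + 1) a b + 1 ∧ cc (τ + 1) a b ≤ cc τ a b + 1 := by
  unfold cc
  omega

theorem grid_symm {x y : Fin 60 → ℤ} (h : (grid (Fin 60)).Adj x y) : (grid (Fin 60)).Adj y x :=
  h.symm

theorem ht1 : S_HFUN → S_HT1 := by
  intro hfun V G v f
  have hR : ∀ y y', (grid (Fin 60)).Adj y y' →
      R G 67 (lab (f.toFun y)) (lev (f.toFun y)) (lab (f.toFun y')) (lev (f.toFun y')) := by
    intro y y' h
    have h := f.isMap y y' h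
    rwa [← pt_lab_lev (f.toFun y), ← pt_lab_lev (f.toFun y'),
      near_pt_iff (lev_le _) (lev_le _)] at h
  obtain ⟨N, hN⟩ := f.bounded
  obtain ⟨H, hH1, hH2, hH3, hH4⟩ := hfun (fun y => lev (f.toFun y)) (fun y y' h => (hR y y' h).1.1)
    ⟨fun _ => (N : ℤ) + 1, by
      have : f.toFun (fun _ => (N : ℤ) + 1) = pt 67 v 0 := hN _ ⟨0, by
        rw [abs_of_nonneg (by positivity)]
        omega⟩
      simp only [this, lev_pt]
      omega⟩
  have ha : ∀ z, lev (f.toFun (sm z)) ≤ 67 := fun z => lev_le _
  have hlow : ∀ z, lev (f.toFun (sm z)) ≤ 3 → H (tm z) = 0 := fun z h =>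
    hH3 (sm z) (tm z) (inBox_sm_tm z) h
  have hhigh : ∀ z, 64 ≤ lev (f.toFun (sm z)) → H (tm z) = 67 := fun z h =>
    hH4 (sm z) (tm z) (inBox_sm_tm z) h
  -- the family of maps
  let F : ℕ → (Fin 60 → ℤ) → Quotient (suspSetoid V 67) := fun τ z =>
    pt 67 (lab (f.toFun (sm z))) (cc τ (lev (f.toFun (sm z))) (H (tm z)))
  have hFmap : ∀ τ, IsGraphMap (grid (Fin 60)) (Susp G 67) (F τ) := by
    intro τ
    apply isGraphMap_grid
    intro x y i hi hj
    have hL : cc τ (lev (f.toFun (sm x))) (H (tm x)) ≤ 67 := cc_le (ha x) (hH2 _)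
    have hL' : cc τ (lev (f.toFun (sm y))) (H (tm y)) ≤ 67 := cc_le (ha y) (hH2 _)
    simp only [F]
    rw [near_pt_iff hL hL']
    by_cases hd : (x i + 1) % 128 = 0
    · -- a wall
      have ht : tm x = tm y := by
        funext j
        by_cases hji : j = i
        · subst hji
          simp only [tm]
          omega
        · simp only [tm, hj j hji]
      have hs : (grid (Fin 60)).Adj (sm x) (sm y) := by
        rw [grid_adj_iff]
        refine ⟨i, Or.inl ?_, fun j hji => ?_⟩
        · simp only [sm]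
          omega
        · simp only [sm, hj j hji]
      have hr := hR _ _ hs
      have hx0 := hlow x
      have hx1 := hhigh x
      have hy0 := hlow y
      have hy1 := hhigh y
      rw [← ht] at hy0 hy1 ⊢
      obtain ⟨⟨hr1, hr2⟩, hr3⟩ := hr
      refine ⟨⟨cc_lip hr1 (by omega), cc_lip hr2 (by omega)⟩, ?_⟩
      rcases hr3 with h | h | h | h | h | ⟨h, h'⟩
      · left
        rw [hx0 (by omega), h, cc_bot]
      · right; left
        rw [hy0 (by omega), h, cc_bot]
      · right; right; left
        rw [hx1 (by omega), h, cc_full]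
      · right; right; right; left
        rw [hy1 (by omega), h, cc_full]
      · right; right; right; right; left
        exact h
      · right; right; right; right; right
        exact ⟨by rw [h], h'⟩
    · -- inside
      have hs : sm x = sm y := by
        funext j
        by_cases hji : j = i
        · subst hji
          simp only [sm]
          omega
        · simp only [sm, hj j hji]
      have ht : (grid (Fin 60)).Adj (tm x) (tm y) := by
        rw [grid_adj_iff]
        refine ⟨i, Or.inl ?_, fun j hji => ?_⟩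
        · simp only [tm]
          omega
        · simp only [tm, hj j hji]
      rw [← hs]
      refine ⟨⟨cc_lip (by omega) (hH1 _ _ ht), cc_lip (by omega) (hH1 _ _ (grid_symm ht))⟩, ?_⟩
      right; right; right; right; left
      rfl
  have hFb : ∀ τ, ∀ z : Fin 60 → ℤ, (∃ i, ((128 * N + 128 : ℕ) : ℤ) < |z i|) →
      F τ z = pt 67 v 0 := by
    rintro τ z ⟨i, hi⟩
    have hf : f.toFun (sm z) = pt 67 v 0 := by
      apply hN
      refine ⟨i, ?_⟩
      simp only [sm]
      push_cast at hi
      rcases le_total 0 (z i) with h | h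
      · rw [abs_of_nonneg h] at hi
        rw [abs_of_nonneg (by omega)]
        omega
      · rw [abs_of_nonpos h] at hi
        rw [abs_of_nonpos (by omega)]
        omega
    have hl : lev (f.toFun (sm z)) = 0 := by
      rw [hf, lev_pt]
      omega
    have hb : H (tm z) = 0 := hlow z (by omega)
    simp only [F]
    rw [hl, hb, cc_bot, pt_eq_iff (by omega) (by omega)]
    exact ⟨rfl, Or.inl rfl⟩
  let g : ℕ → AMap 60 (Susp G 67) (pt 67 v 0) := fun τ => ⟨F τ, hFmap τ, 128 * N + 128, hFb τ⟩
  have hstep : ∀ τ, Homotopic (g τ) (g (τ + 1)) := by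
    intro τ
    apply Step.homotopic
    intro z
    show Near (Susp G 67) (F τ z) (F (τ + 1) z)
    simp only [F]
    rw [near_pt_iff (cc_le (ha z) (hH2 _)) (cc_le (ha z) (hH2 _))]
    refine ⟨cc_step τ _ _, ?_⟩
    right; right; right; right; left
    rfl
  have hchain : ∀ τ, Homotopic (g 0) (g τ) := by
    intro τ
    induction τ with
    | zero => exact Homotopic.refl _
    | succ τ ih => exact ih.trans (hstep τ)
  have h0 : Homotopic f (g 0) := by
    obtain ⟨f1, h1, e1⟩ := exists_halved f
    obtain ⟨f2, h2, e2⟩ := exists_halved f1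
    obtain ⟨f3, h3, e3⟩ := exists_halved f2
    obtain ⟨f4, h4, e4⟩ := exists_halved f3
    obtain ⟨f5, h5, e5⟩ := exists_halved f4
    obtain ⟨f6, h6, e6⟩ := exists_halved f5
    obtain ⟨f7, h7, e7⟩ := exists_halved f6
    have he : f7 = g 0 := by
      apply AMap.ext
      intro z
      show f7.toFun z = F 0 z
      simp only [F, cc_zero, pt_lab_lev]
      rw [e7, e6, e5, e4, e3, e2, e1]
      congr 1
      funext i
      simp only [sm]
      omega
    rw [← he]
    exact h1.trans (h2.trans (h3.trans (h4.trans (h5.trans (h6.trans h7)))))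
  refine ⟨H, g 67, hH1, hH2, ?_, ?_, h0.trans (hchain 67)⟩
  · intro z hz
    have h1 := hlow z
    have h2 := hhigh z
    have hz' : 0 < H (tm z) ∧ H (tm z) < 67 := hz
    show 4 ≤ lev (f.toFun (sm z)) ∧ lev (f.toFun (sm z)) + 4 ≤ 67
    omega
  · intro z
    show F 67 z = pt 67 (lab (f.toFun (sm z))) (H (tm z))
    simp only [F]
    rw [cc_top (ha z) (hH2 _)]

end Pool.Agent.Helper71.SD.HT1
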